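import Pool.Agent.W896.FD.CF

/-!
# Proofs that a graph has no large clique, checked by circuits of small formal degree

A Boolean circuit with AND gates of fan-in two, OR gates of any fan-in and negations at the inputs
accepts if and only if it has a proof tree all of whose leaves are true literals; the formal degree
in an input bit is the largest number of leaves with this bit. (Circuits of polynomial size and
polynomial total degree are non-uniform nondeterministic machines with logarithmic memory, a stack
and polynomial time; the circuits of degree one in every bit are the decomposable ones, DNNFs, and a
nondeterministic syntactic read-`k` branching program is a circuit of degree at most `k` in every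
bit.) So these circuits are nondeterministic; cliques are easy for them: with degree one in each
bit and size `n ^ (s + 2)` they accept exactly the graphs with `s` pairwise adjacent vertices. For
the complement (the existence of short proofs that a graph has no clique with `s` vertices, which
is complete for coNP) we prove exponential lower bounds for every `s ≥ 4`, even `s = 4`, and even
for the promise problem whether the graph can be coloured with `s - 1` colours or contains a clique
with `s` vertices.

Let a finite family of circuits accept no graph with a clique of `s ≥ 4` vertices, and let it accept
every graph that can be coloured with `s - 1` colours with probability at least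
`2 ^ (- (n - s) / 2 ^ (60 (k + 1)))` (over a random circuit of the family). If the formal degrees of
each circuit sum up to at most `k n ^ 2` then some circuit of the family has size at least
`2 ^ ((n - s) / 2 ^ (60 (k + 1)) - 1)`.

Proof. Hidden blocks with two states (`Pool.Agent.W896.FD.Main`); here a block is a complete graph
with four vertices minus an edge, and there are `s - 4` vertices which are joined to all the others.
There are two disjoint pairs in each block exactly one of which is joined; if the states of the
pairs do not fit, both pairs of some block are joined.
-/

set_option autoImplicit false

namespace Pool.Agent.Results.MP_9cec2c_lc.FormalDegree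

open Pool.Agent.W896.RK Pool.Agent.W896.FD

/-- Let `s ≥ 4` and let `U r` be a finite nonempty family of circuits with the bits of a graph on
`n` vertices as inputs such that no circuit of the family accepts a graph with a clique of `s`
vertices, and such that every graph which can be coloured with `s - 1` colours is accepted by at
least a `2 ^ (- ⌊(n - s) / 2 ^ (60 (k + 1))⌋)` fraction of the circuits. If in every circuit of the
family the sum of the formal degrees in all bits is at most `k n ^ 2` then, for some circuit of the
family, `n - s ≤ 2 ^ (60 (k + 1)) (⌊log₂ g⌋ + 1)`, where `g` is its number of gates. -/
theorem result (k n s : ℕ) (hs : 4 ≤ s) (R : Type) [Fintype R] [Nonempty R]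
    (U : R → Circ (Sym2 (Fin n)))
    (hU : ∀ r (G : SimpleGraph (Fin n)), (U r).Val (bits G) (U r).out → G.CliqueFree s)
    (hc : ∀ G : SimpleGraph (Fin n), G.Colorable (s - 1) →
      Nat.card R ≤ 2 ^ ((n - s) / 2 ^ (60 * (k + 1))) *
        Nat.card {r // (U r).Val (bits G) (U r).out})
    (hd : ∀ r, ∃ d : (U r).G → Sym2 (Fin n) → ℕ, IsDeg (U r) id d ∧
      ∑ e, d (U r).out e ≤ k * n ^ 2) :
    ∃ r, n - s ≤ 2 ^ (60 * (k + 1)) * (Nat.log 2 (Fintype.card (U r).G) + 1) :=
  sandwich_final k n s hs R U hU hc hd

end Pool.Agent.Results.MP_9cec2c_lc.FormalDegree
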