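import Mathlib
import Pool.Agent.W977.CQ.Defs
import Pool.Agent.W902.Q.Stm
import Pool.Agent.W902.Q.Sbq

/-!
# Co-nondeterminism against quantum gap predicates, in linear time and linear space

The input consists of `n` words, elements of `ZMod p`. `OnePass n A w` is the type of one-pass
programs: the words are read once each, in an order that is fixed for the program, and the program
has `w` memory states. For a family `P j` of such programs, the language of the inputs `x` with
`∀ j, ¬ (P j).Accepts x` is decided by a co-nondeterministic machine that makes one guess `j` and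
then one pass over the input with `w` memory states; its complement is decided by a
nondeterministic machine of the same kind.

`Machine n A D T` is the type of quantum machines with a memory with `D` basis states (`log D`
qubits) and `T` steps; in every step each basis state of the memory reads one word, at a position
that depends on the basis state (so superpositions read superpositions of words), and an arbitrary
quantum operation, which depends on the words read, is applied to the memory. Classical
probabilistic machines are a special case.

`GapTells Q P b δ`: the acceptance probability of the machine `Q` is at least `(1 + δ) b` on all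
inputs in the language `{x | ∀ j, ¬ (P j).Accepts x}` and at most `b` on all other inputs. This is
the acceptance mode of the classes SBP (classical `Q`) and SBQP = A0PP (quantum `Q`), with an
exponentially small threshold `b`. It covers nondeterministic machines: if a classical or quantum
proof of `ℓ` (qu)bits is verified with soundness error at most `2 ^ (- ℓ) / 4` and completeness
error at most `1 / 2`, then guessing a random (the maximally mixed) proof accepts with
probability at least `2 ^ (- ℓ) / 2` on the inputs of the language and at most `2 ^ (- ℓ) / 4` on
all others.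
-/

set_option autoImplicit false

open Filter

namespace Pool.Agent.Results.MP_9cec2c_lc.LinearTimeQuantumProofs

open Pool.Agent.W902.Q Pool.Agent.W977.CQ

theorem result :
    (∀ (k : ℕ) (δ : ℝ), 0 < δ → δ ≤ 1 → ∃ m₀ c₀ : ℕ, ∀ m ≥ m₀,
      ∀ s p : ℕ, p.Prime → 2 ^ (c₀ * (s + 1)) ≤ p → ∃ N, ∀ n ≥ N,
        ∃ P : Fin m → OnePass n (ZMod p) (p * p), ∀ (D T : ℕ) (Q : Machine n (ZMod p) D T),
          Q.Valid → T ≤ k * n → D ≤ 2 ^ (s * n) → ∀ b : ℝ, (1 / 2) ^ (s * n) ≤ b →
            ¬ GapTells Q P b δ) ∧
    (∀ β : ℕ → ℕ, Tendsto β atTop atTop →
      ∃ (p m : ℕ → ℕ) (P : ∀ n, Fin (m n) → OnePass n (ZMod (p n)) (p n * p n)),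
        (∀ n, (p n).Prime) ∧ (∀ᶠ n in atTop, m n * (p n * p n) ≤ β n) ∧
        ∀ K : ℕ, ∀ᶠ n in atTop, ∀ (D T : ℕ) (Q : Machine n (ZMod (p n)) D T), Q.Valid →
          T ≤ K * n → D ≤ 2 ^ (K * n) → ∀ b : ℝ, (1 / 2) ^ (K * n) ≤ b →
            ¬ GapTells Q (P n) b (1 / ((K : ℝ) + 1))) :=
  ⟨fixedB, sequenceB⟩

end Pool.Agent.Results.MP_9cec2c_lc.LinearTimeQuantumProofs
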