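import Pool.Agent.W920.NL.Law1

/-!
# `NP = coNP` and nondeterministic prediction of the answers to parallel `NP` queries

`InNP`, `NPHard` are those of `Pool.Agent.NPC.Defs`, polynomial time is Mathlib's
`Turing.TM2ComputableInPolyTime`; `Outputs`, `NPredictable` and `NFullyPredictable` are those of
`Pool.Agent.W920.LN.Defs`, `Beats` is that of `Pool.Agent.W901.AT.DefsP`.

A set `A` is nondeterministically `(δ, ε)`-predictable if there is a total nondeterministic
polynomial-time algorithm (every input has at least one output, possibly many different ones) which,
given a nonempty list of `m` questions of length at most `m ^ ε` about membership in `A` and
`O(log n)` bits of information about this list from an arbitrary source, has only outputs which are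
predictions for some `s > 0` of the questions such that the numbers of right and of wrong
predictions differ by at least `m ^ δ * √ s`.  It is nondeterministically fully `δ`-predictable if
this holds for all lists of questions, of any length, with predictions for all questions.

The theorem: for all `ε > 0` and `0 < δ ≤ 1 / 2`,

`NP = coNP` iff some `NP`-hard set is nondeterministically `(δ, ε)`-predictable iff every set in
`NP` is nondeterministically fully `δ`-predictable.

(For `δ ≤ 0` every set is fully `δ`-predictable, even deterministically, so the threshold is sharp.)

Proof.  Let some `NP`-hard set be nondeterministically predictable, and let `L` be in `NP`. We
describe certificates for `x ∉ L`.

1. The vector of the answers to a list of `NP` questions is the value of a single-valued `NP`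
   function once the number of the positive answers is known. The prefixes of such a value are
   hashed to polynomials over a field with `p` elements, and the parities of the values of the
   polynomial belonging to the right prefix are asked: these are polynomially many lists of `NP`
   questions, which depend on the given list only (also for wrong numbers of positive answers). Guess
   one output of the algorithm for each of them and each of the polynomially many values of the
   information: a table. Every complete table yields a list of candidates which contains the vector
   of the answers; its length is bounded independently of the table.
2. The algorithm of `Pool.Agent.H251R5.PQ` (which proves `P = NP` if such candidates can be computed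
   in polynomial time) searches for a witness of `x ∈ L` in polynomially many levels; in each level
   it asks one list of `NP` questions, tries to read off a witness from every candidate and chooses
   the next restriction of the witnesses such that all candidates claim that it is satisfied by a
   witness. Guess a table in each level. If `x ∈ L` then a witness is found, whatever complete
   tables are guessed; if `x ∉ L` then none is found. So the complete sequences of tables for which
   no witness is found are certificates for `x ∉ L`.
-/

set_option autoImplicit false

namespace Pool.Agent.Results.MP_9cec2c_lc.NondeterministicLaw

open Pool.Agent.NPC Pool.Agent.W920.LN

/-- **The law of nondeterministic prediction for `NP`.** -/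
theorem result (δ ε : ℝ) (h1 : 0 < δ) (h2 : δ ≤ 1 / 2) (h3 : 0 < ε) : List.TFAE
    [∀ L : Set (List Bool), InNP L → InNP Lᶜ,
      ∃ A : Set (List Bool), NPHard A ∧ NPredictable δ ε A,
      ∀ A : Set (List Bool), InNP A → NFullyPredictable δ A] :=
  Pool.Agent.W920.NL.conp_law h1 h2 h3

end Pool.Agent.Results.MP_9cec2c_lc.NondeterministicLaw
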