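import Mathlib
import Pool.Agent.H592R3.Defs
import Pool.Agent.W964.Pram.Machine
import Pool.Agent.W964.Pram.Ip.Verifier
import Pool.Agent.W964.Pram.Ip.SatVer
import Pool.Agent.W964.Pram.Ip.Unsat
import Pool.Agent.W964.Pram.Ip.UnsatFinal

/-!
NP and co-NP for ideal parallel random access machines (priority concurrent writing, arbitrary
instruction set, unbounded words and memory): the satisfiability of CNF formulas with `n` variables
has proofs of `n` bits that are checked in one step with one processor for every clause, but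
unsatisfiability has no proofs, not even interactive proofs with private coins and arbitrarily many
rounds, that are checked in `o (n / log n)` steps with `2 ^ ((1 - ε) n)` processors.
-/

set_option autoImplicit false

open SmallDepth Finset Filter Pool.Agent.W964.Pram

namespace Pool.Agent.Results.MP_9cec2c_lc.ParallelProofs

/-- 1. For all `n` and `M` some verifier with `M` processors which receives `n` bits from the prover
and gives its machines one step (or more) accepts some prover with probability 1 if the CNF formula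
`x` with `n` variables and `M` clauses is satisfiable, and accepts no prover (with probability
greater than 0) otherwise.

2. For `ε > 0` and `K` there is `C > 0` such that for `n ≥ 2` variables, `T ≥ 1` steps, `g` bits
of the prover, `C T log (n + g) ≤ w ≤ n` and `M ≥ n 2 ^ w` clauses no verifier with at most
`2 ^ ((1 - ε) n)` processors separates unsatisfiable formulas of width at most `w` from formulas of
width at most `w` with exactly one satisfying assignment, with gap `2 ^ (-w / C)`: if for every
unsatisfiable formula of width at most `w` some prover is accepted with probability at least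
`γ + 2 ^ (-w / C)`, then for some formula of width at most `w` with exactly one satisfying
assignment some prover is accepted with probability greater than `γ`.

3. For `0 < δ < 2`, `K`, `c` and `T n = o (n / log n)` there are widths `w n = O (T n log n)` and
numbers of clauses `M n = n 2 ^ w n` such that for all large `n` verifiers with `(2 - δ) ^ n` times
a polynomial in `M n` processors, `T n` steps for every message and `n ^ c` bits of the prover do
not have completeness `2 / 3` and soundness `1 / 3` for the set of the unsatisfiable formulas of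
width at most `w n`. -/
theorem result :
    (∀ n M : ℕ, ∃ V : Verifier (Fin M × Fin n × Bool) M, V.Lists n ∧
      ∀ T, 1 ≤ T → ∀ x, ((∃ α, Models x α) → ∃ π, V.acc T n x π = 1) ∧
        ((¬ ∃ α, Models x α) → ∀ π, V.acc T n x π = 0)) ∧
    (∀ (ε : ℝ) (K : ℕ), 0 < ε → ∃ C : ℝ, 0 < C ∧
      ∀ n T g w M : ℕ, 2 ≤ n → 1 ≤ T → C * (T * Real.log (n + g)) ≤ w → w ≤ n →
      n * 2 ^ w ≤ M →
      ∀ (P : ℕ) (V : Verifier (Fin M × Fin n × Bool) P), (P : ℝ) ≤ 2 ^ ((1 - ε) * n) →
        V.Lists (2 ^ (K * n)) →
        ∀ γ : ℝ, (∀ x, WidthLe x w → (¬ ∃ α, Models x α) →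
            ∃ π, γ + 2 ^ (-((w : ℝ) / C)) ≤ V.acc T g x π) →
          ∃ x, WidthLe x w ∧ (∃! α, Models x α) ∧ ∃ π, γ < V.acc T g x π) ∧
    (∀ (δ : ℝ) (K c : ℕ), 0 < δ → δ < 2 → ∀ T : ℕ → ℕ, (∀ n, 1 ≤ T n) →
      (fun n : ℕ => (T n : ℝ) * Real.log n) =o[atTop] (fun n : ℕ => (n : ℝ)) →
      ∃ w : ℕ → ℕ, (∃ C : ℝ, ∀ n, 2 ≤ n → (w n : ℝ) ≤ C * (T n * Real.log n)) ∧
        ∀ e : ℕ, ∀ᶠ n : ℕ in atTop,
          ∀ (P : ℕ) (V : Verifier (Fin (n * 2 ^ w n) × Fin n × Bool) P),
          (P : ℝ) ≤ (2 - δ) ^ n * (e * (((n * 2 ^ w n : ℕ) : ℝ)) ^ e) → V.Lists (2 ^ (K * n)) →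
          (∀ x, WidthLe x (w n) → (¬ ∃ α, Models x α) →
            ∃ π, 2 / 3 ≤ V.acc (T n) (n ^ c) x π) →
          ∃ x, WidthLe x (w n) ∧ (∃! α, Models x α) ∧
            ∃ π, 1 / 3 < V.acc (T n) (n ^ c) x π) :=
  ⟨sat_proofs, fun ε K hε => unsat_ip ε hε K,
    fun δ K c hδ hδ2 T hT hTo => unsat_q1 δ hδ hδ2 K c T hT hTo⟩

end Pool.Agent.Results.MP_9cec2c_lc.ParallelProofs
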