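import Pool.Agent.W903.Rig.Collapse

/-!
# `NP = coNP` as an isomorphism problem of two groups of permutations

Let `GrpNP` and `GrpPH` be the groups of the length-preserving permutations of the set of bit
strings whose graph is in `NP`, respectively in the polynomial hierarchy (normalised to fix the
strings with at most two letters). We show that `NP = coNP` if and only if the abstract groups
`GrpNP` and `GrpPH` are isomorphic, if and only if `GrpNP` is isomorphic to the group of the
second level of the hierarchy, and that, unconditionally, every isomorphism between `GrpNP` and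
`GrpPH` is the conjugation by an element of `GrpNP`.
-/

namespace Pool.Agent.Results.MP_9cec2c_lc.RigidGroups

open Turing

/-- A function on bit strings is polynomial-time computable: some Turing machine (in the sense of
Mathlib) computes it in polynomially many steps. -/
def PolyTime (f : List Bool → List Bool) : Prop :=
  Nonempty (TM2ComputableInPolyTime (id : List Bool → List Bool) (id : List Bool → List Bool) f)

/-- The class `P`. -/
def InP (L : Set (List Bool)) : Prop :=
  ∃ V : List Bool → List Bool, PolyTime V ∧ ∀ x, x ∈ L ↔ V x = [true]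

/-- The pair of two bit strings, as a bit string: each bit of `x` is preceded by a `true`, then
comes a `false`, then `w`. -/
def pairBits (x w : List Bool) : List Bool := x.flatMap (fun b => [true, b]) ++ false :: w

/-- The class `NP`: languages with polynomially bounded certificates verifiable in polynomial
time. -/
def InNP (L : Set (List Bool)) : Prop :=
  ∃ (V : List Bool → List Bool) (p : Polynomial ℕ), PolyTime V ∧
    ∀ x, x ∈ L ↔ ∃ w : List Bool, w.length ≤ p.eval x.length ∧ V (pairBits x w) = [true]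

/-- The levels `Σ_k` of the polynomial hierarchy: `L` is in `Σ_(k+1)` if and only if, for some `M`
in `Σ_k` and some polynomial `p`, `L` consists of the `x` for which there is `w` of length at most
`p |x|` with `(x, w)` not in `M`. -/
def SigmaP : ℕ → Set (List Bool) → Prop
  | 0, L => InP L
  | k + 1, L => ∃ (M : Set (List Bool)) (p : Polynomial ℕ), SigmaP k M ∧
      ∀ x : List Bool, x ∈ L ↔ ∃ w : List Bool, w.length ≤ p.eval x.length ∧ pairBits x w ∉ M

/-- The polynomial hierarchy. -/
def InPH (L : Set (List Bool)) : Prop := ∃ k, SigmaP k L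

/-- The graph of a function on bit strings, as a set of bit strings. -/
def graph (f : List Bool → List Bool) : Set (List Bool) := {z | ∃ x, z = pairBits x (f x)}

/-- The permutation preserves the length and fixes the strings with at most two letters. -/
def Norm (f : Equiv.Perm (List Bool)) : Prop :=
  (∀ x, (f x).length = x.length) ∧ ∀ x, x.length ≤ 2 → f x = x

theorem sigmaP_eq (k : ℕ) (L : Set (List Bool)) : SigmaP k L = Pool.Agent.W903.GP.SigmaP k L := by
  induction k generalizing L with
  | zero => rfl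
  | succ k ih =>
    have e : SigmaP k = Pool.Agent.W903.GP.SigmaP k := funext ih
    change (∃ (M : Set (List Bool)) (p : Polynomial ℕ), SigmaP k M ∧ _) = _
    rw [e]
    rfl

theorem inPH_eq : InPH = Pool.Agent.W903.GP.InPH :=
  funext fun L => by
    change (∃ k, SigmaP k L) = ∃ k, Pool.Agent.W903.GP.SigmaP k L
    simp only [sigmaP_eq]

theorem sigma2_eq : SigmaP 2 = Pool.Agent.W903.GP.SigmaP 2 := funext fun L => sigmaP_eq 2 L

theorem niceNP : Pool.Agent.W903.Rig.Nice2 InNP := Pool.Agent.W903.Rig.nice2_np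

theorem nicePH : Pool.Agent.W903.Rig.Nice2 InPH := by
  rw [inPH_eq]
  exact Pool.Agent.W903.Rig.nice2_ph

theorem niceS2 : Pool.Agent.W903.Rig.Nice2 (SigmaP 2) := by
  rw [sigma2_eq]
  exact Pool.Agent.W903.Rig.nice2_sigma 1

theorem mul_mem_NP {f g : Equiv.Perm (List Bool)}
    (hf : Norm f ∧ InNP (graph ⇑f)) (hg : Norm g ∧ InNP (graph ⇑g)) :
    Norm (f * g) ∧ InNP (graph ⇑(f * g)) :=
  (Pool.Agent.W903.Rig.RC _ niceNP).mul_mem hf hg

theorem one_mem_NP : Norm 1 ∧ InNP (graph ⇑(1 : Equiv.Perm (List Bool))) :=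
  (Pool.Agent.W903.Rig.RC _ niceNP).one_mem

theorem inv_mem_NP {f : Equiv.Perm (List Bool)} (hf : Norm f ∧ InNP (graph ⇑f)) :
    Norm f⁻¹ ∧ InNP (graph ⇑f⁻¹) :=
  (Pool.Agent.W903.Rig.RC _ niceNP).inv_mem hf

/-- The group of the length-preserving permutations of the set of bit strings, trivial on the
strings with at most two letters, whose graph is in `NP`. -/
def GrpNP : Subgroup (Equiv.Perm (List Bool)) where
  carrier := {f | Norm f ∧ InNP (graph ⇑f)}
  mul_mem' := mul_mem_NP
  one_mem' := one_mem_NP
  inv_mem' := inv_mem_NP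

theorem mul_mem_PH {f g : Equiv.Perm (List Bool)}
    (hf : Norm f ∧ InPH (graph ⇑f)) (hg : Norm g ∧ InPH (graph ⇑g)) :
    Norm (f * g) ∧ InPH (graph ⇑(f * g)) :=
  (Pool.Agent.W903.Rig.RC _ nicePH).mul_mem hf hg

theorem one_mem_PH : Norm 1 ∧ InPH (graph ⇑(1 : Equiv.Perm (List Bool))) :=
  (Pool.Agent.W903.Rig.RC _ nicePH).one_mem

theorem inv_mem_PH {f : Equiv.Perm (List Bool)} (hf : Norm f ∧ InPH (graph ⇑f)) :
    Norm f⁻¹ ∧ InPH (graph ⇑f⁻¹) :=
  (Pool.Agent.W903.Rig.RC _ nicePH).inv_mem hf

/-- The group of the length-preserving permutations of the set of bit strings, trivial on the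
strings with at most two letters, whose graph is in the polynomial hierarchy. -/
def GrpPH : Subgroup (Equiv.Perm (List Bool)) where
  carrier := {f | Norm f ∧ InPH (graph ⇑f)}
  mul_mem' := mul_mem_PH
  one_mem' := one_mem_PH
  inv_mem' := inv_mem_PH

theorem mul_mem_S2 {f g : Equiv.Perm (List Bool)}
    (hf : Norm f ∧ SigmaP 2 (graph ⇑f)) (hg : Norm g ∧ SigmaP 2 (graph ⇑g)) :
    Norm (f * g) ∧ SigmaP 2 (graph ⇑(f * g)) :=
  (Pool.Agent.W903.Rig.RC _ niceS2).mul_mem hf hg

theorem one_mem_S2 : Norm 1 ∧ SigmaP 2 (graph ⇑(1 : Equiv.Perm (List Bool))) :=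
  (Pool.Agent.W903.Rig.RC _ niceS2).one_mem

theorem inv_mem_S2 {f : Equiv.Perm (List Bool)} (hf : Norm f ∧ SigmaP 2 (graph ⇑f)) :
    Norm f⁻¹ ∧ SigmaP 2 (graph ⇑f⁻¹) :=
  (Pool.Agent.W903.Rig.RC _ niceS2).inv_mem hf

/-- The group of the length-preserving permutations of the set of bit strings, trivial on the
strings with at most two letters, whose graph is in the second level `Σ_2` of the hierarchy. -/
def GrpS2 : Subgroup (Equiv.Perm (List Bool)) where
  carrier := {f | Norm f ∧ SigmaP 2 (graph ⇑f)}
  mul_mem' := mul_mem_S2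
  one_mem' := one_mem_S2
  inv_mem' := inv_mem_S2

/-- `NP = coNP` if and only if the groups `GrpNP` and `GrpPH` are isomorphic, if and only if the
groups `GrpNP` and `GrpS2` are isomorphic; and every isomorphism from `GrpNP` to `GrpPH` is the
conjugation by an element of `GrpNP`. -/
theorem result :
    List.TFAE [
      ∀ L : Set (List Bool), InNP L ↔ InNP Lᶜ,
      Nonempty (GrpNP ≃* GrpPH),
      Nonempty (GrpNP ≃* GrpS2)] ∧
    ∀ φ : GrpNP ≃* GrpPH, ∃ s ∈ GrpNP, ∀ g : GrpNP,
      (φ g : Equiv.Perm (List Bool)) = s * (g : Equiv.Perm (List Bool)) * s⁻¹ := by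
  have h1 : (∀ L : Set (List Bool), InNP L ↔ InNP Lᶜ) ↔ Nonempty (GrpNP ≃* GrpPH) := by
    refine Iff.trans ?_ (Pool.Agent.W903.Rig.iso_iff niceNP nicePH).symm
    rw [inPH_eq]
    exact Pool.Agent.W903.Rig.np_iff
  have h2 : (∀ L : Set (List Bool), InNP L ↔ InNP Lᶜ) ↔ Nonempty (GrpNP ≃* GrpS2) := by
    refine Iff.trans ?_ (Pool.Agent.W903.Rig.iso_iff niceNP niceS2).symm
    rw [sigma2_eq]
    exact Pool.Agent.W903.Rig.np_iff2
  refine ⟨?_, fun φ => (Pool.Agent.W903.Rig.rigid_CC niceNP nicePH φ).2⟩
  tfae_have 1 ↔ 2 := h1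
  tfae_have 1 ↔ 3 := h2
  tfae_finish

end Pool.Agent.Results.MP_9cec2c_lc.RigidGroups
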