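import Mathlib
import Pool.Agent.H542R2.PMNum
import Pool.Agent.H542R2.PMFinal
import Pool.Agent.W929.TW.Conj

/-!
# Proofs of small treewidth

A proof of `NP ≠ coNP` has to show that no proof system has short refutations of all unsatisfiable
CNFs.  Here the lines of a refutation are arbitrary Boolean functions of polynomial description
size (for instance, circuits with `N ^ k` gates, the lines of Extended Frege), the inferences are
arbitrary sound inferences, the refutations are dag-like, and the resource which is bounded is the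
treewidth of the dag: every such refutation of treewidth at most `N ^ k`, of certain polynomial-size
CNFs, has exponentially many lines.

Tree-like refutations have treewidth one; refutations in which at most `r` lines are used more than
once have treewidth at most `r + 1`; refutations with a memory of `s` lines have pathwidth at most
`2 s`.  So the theorem contains exponential lower bounds for tree-like refutations, for refutations
with at most `N ^ k` reused lines and for refutations with a memory of `N ^ k` lines.
-/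

namespace Pool.Agent.Results.MP_9cec2c_lc.TreewidthOfProofs

/-- A clause over `N` variables: a finite set of literals; the literal `(x, s)` says that the
variable `x` has the value `s`. -/
abbrev Clause (N : ℕ) := Finset (Fin N × Bool)

/-- The assignment `z` satisfies the clause. -/
def Clause.Holds {N : ℕ} (z : Fin N → Bool) (c : Clause N) : Prop := ∃ l ∈ c, z l.1 = l.2

/-- A dag-like refutation of the CNF `F` with `S` lines.  Every line is a Boolean function from
the set `A` of allowed lines; every line is semantically implied by its premises, at most `a`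
earlier lines, together with at most `a` clauses of `F`; some line is unsatisfiable. -/
structure Refutation {N : ℕ} (F : Finset (Clause N)) (A : Finset ((Fin N → Bool) → Bool))
    (a S : ℕ) where
  line : Fin S → (Fin N → Bool) → Bool
  mem : ∀ j, line j ∈ A
  prem : Fin S → Finset (Fin S)
  card_prem : ∀ j, (prem j).card ≤ a
  prem_lt : ∀ j, ∀ p ∈ prem j, p < j
  sound : ∀ j, ∃ C ⊆ F, C.card ≤ a ∧ ∀ z, (∀ c ∈ C, c.Holds z) →
    (∀ p ∈ prem j, line p z = true) → line j z = true
  final : ∃ j, ∀ z, line j z = false

/-- A tree decomposition of width at most `b` of the graph whose vertices are the lines of the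
refutation and in which every line is joined to its premises: a tree with bags of at most `b + 1`
lines at its nodes, such that every line is in some bag, every line is in a common bag with each
of its premises, and the nodes whose bags contain a given line form a connected subtree. -/
structure TreeDecomposition {N : ℕ} {F : Finset (Clause N)}
    {A : Finset ((Fin N → Bool) → Bool)} {a S : ℕ} (π : Refutation F A a S) (b : ℕ) where
  size : ℕ
  tree : SimpleGraph (Fin size)
  isTree : tree.IsTree
  bag : Fin size → Finset (Fin S)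
  card_bag : ∀ t, (bag t).card ≤ b + 1
  line_mem : ∀ j, ∃ t, j ∈ bag t
  prem_mem : ∀ j, ∀ p ∈ π.prem j, ∃ t, j ∈ bag t ∧ p ∈ bag t
  connected : ∀ j, (tree.induce {t | j ∈ bag t}).Preconnected

open H542PM Finset Pool.Agent.W929.TW

/-- **Exponential size lower bound for refutations of polynomial treewidth, for arbitrary lines of
polynomial description size.**  There is `c > 0` such that for every `k` the following holds for
all large `N`.  Let `A` be any set of at most `2 ^ (N ^ k)` Boolean functions of `N` variables.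
Then there is an unsatisfiable CNF `F` with `N` variables, polynomially many clauses and clauses of
width `O(log N)` such that every dag-like refutation of `F` with lines from `A`, with at most
`a ≤ N ^ k` premises and clauses per inference, whose graph has treewidth at most `N ^ k`, has at
least `2 ^ (c N)` lines. -/
theorem result : ∃ c : ℝ, 0 < c ∧ ∀ k : ℕ, ∃ k' N0 : ℕ, ∀ N ≥ N0,
    ∀ A : Finset ((Fin N → Bool) → Bool), A.card ≤ 2 ^ (N ^ k) →
      ∃ F : Finset (Clause N), F.card ≤ N ^ k' ∧ (∀ cl ∈ F, cl.card ≤ k' * Nat.log 2 N) ∧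
        (∀ z, ∃ cl ∈ F, ¬ cl.Holds z) ∧
        ∀ (a b S : ℕ) (π : Refutation F A a S), a ≤ N ^ k → b ≤ N ^ k →
          Nonempty (TreeDecomposition π b) → (2 : ℝ) ^ (c * N) ≤ S := by
  classical
  refine ⟨1 / 10000000 / 2, by norm_num, fun k => ?_⟩
  obtain ⟨k', N0, hN0⟩ := exists_good (3 * k + 3)
  obtain ⟨N1, hN1⟩ := ev_exp (4 * k + 6)
  refine ⟨k', max (max N0 N1) 4, fun N hN A hA => ?_⟩
  have hNN0 : N0 ≤ N := (le_max_left _ _).trans ((le_max_left _ _).trans hN)
  have hNN1 : N1 ≤ N := (le_max_right _ _).trans ((le_max_left _ _).trans hN)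
  have hN4 : 4 ≤ N := (le_max_right _ _).trans hN
  clear hN
  obtain ⟨y, hy⟩ : ∃ y : ℕ, y = N ^ k := ⟨_, rfl⟩
  have hy1 : 1 ≤ y := by rw [hy]; exact Nat.one_le_pow _ _ (by omega)
  obtain ⟨s, hs⟩ : ∃ s : ℕ, s = N ^ (2 * k + 2) := ⟨_, rfl⟩
  have hsy : s = y * y * (N * N) := by rw [hs, hy]; ring
  have hNN16 : 16 ≤ N * N := by nlinarith
  have hs16 : y * y * 16 ≤ s := by rw [hsy]; exact Nat.mul_le_mul_left _ hNN16
  have hcard : (conj A s).card ≤ 2 ^ (N ^ (3 * k + 3)) := by
    refine (card_conj A s).trans ?_
    have h1 : A.card + 1 ≤ 2 ^ (y + 1) := by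
      rw [pow_succ, hy]
      have : 1 ≤ 2 ^ (N ^ k) := Nat.one_le_two_pow
      omega
    calc (A.card + 1) ^ s ≤ (2 ^ (y + 1)) ^ s := Nat.pow_le_pow_left h1 _
      _ = 2 ^ ((y + 1) * s) := by rw [← pow_mul]
      _ ≤ 2 ^ (N ^ (3 * k + 3)) := by
          apply Nat.pow_le_pow_right (by norm_num)
          have e : N ^ (3 * k + 3) = N * y * s := by rw [hy, hs]; ring
          rw [e]
          apply Nat.mul_le_mul_right
          nlinarith
  obtain ⟨F, μ, hF1, hF2, hF3, hg⟩ := hN0 N hNN0 (conj A s) hcard
  have hcp : ∀ (cl : Clause N) (z : Fin N → Bool), cp cl z = true ↔ cl.Holds z :=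
    fun cl z => cp_eq_true
  have hqbig : 16 * (y * y) ≤ N ^ (3 * k + 3 + 2) := by
    have e : N ^ (3 * k + 3 + 2) = N ^ k * N ^ 3 * s := by rw [hs]; ring
    have h1 : 1 ≤ N ^ k * N ^ 3 := Nat.one_le_iff_ne_zero.mpr (by positivity)
    rw [e]
    nlinarith
  have hyy : y ≤ y * y := by nlinarith
  have hNR : (4 : ℝ) ≤ N := by exact_mod_cast hN4
  have hyR : (1 : ℝ) ≤ y := by exact_mod_cast hy1
  -- numerics
  have hnum : ∀ (S a : ℕ), a ≤ y →
      1 / 2 ≤ (S : ℝ) * ((a + 2 * (s : ℝ) ^ 2) * (2 : ℝ) ^ (-((N : ℝ) / 10000000))) →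
      (2 : ℝ) ^ (1 / 10000000 / 2 * (N : ℝ)) ≤ S := by
    intro S a ha h
    have h1 : (1 : ℝ) / 10000000 / 2 * N = (N : ℝ) / 10000000 / 2 := by ring
    rw [h1]
    apply num_lin (X := (a : ℝ) + 2 * (s : ℝ) ^ 2) (by positivity) (by positivity) _ h
    refine le_trans ?_ (hN1 N hNN1)
    have haR : (a : ℝ) ≤ y := by exact_mod_cast ha
    have hsR : (s : ℝ) = y * y * (N * N) := by exact_mod_cast hsy
    have h3 : (N : ℝ) ^ (4 * k + 6) = s * s * (N * N) := by
      have e : N ^ (4 * k + 6) = s * s * (N * N) := by rw [hs]; ring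
      exact_mod_cast e
    rw [h3]
    have h4 : (16 : ℝ) ≤ N * N := by nlinarith
    have h5 : (y : ℝ) ≤ s := by
      have : y ≤ s := by omega
      exact_mod_cast this
    have h6 : (1 : ℝ) ≤ s := hyR.trans h5
    have h7 : (s : ℝ) ≤ s * s := by nlinarith
    have h8 : (s : ℝ) * s * 16 ≤ s * s * (N * N) := mul_le_mul_of_nonneg_left h4 (by positivity)
    nlinarith
  have hok : ∀ {a S : ℕ} (π : Refutation F A a S) (j : Fin S),
      ∃ Cs : List ((Fin N → Bool) → Bool), Cs.length ≤ a ∧
        (∀ c ∈ Cs, c ∈ {f | ∃ c ∈ F, f = cp c}) ∧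
        ∀ z, (∀ c ∈ Cs, c z = true) → (∀ p ∈ π.prem j, π.line p z = true) →
          π.line j z = true := by
    intro a S π j
    obtain ⟨C, hCF, hCa, h⟩ := π.sound j
    refine ⟨C.toList.map cp, ?_, ?_, ?_⟩
    · rw [List.length_map, length_toList]
      exact hCa
    · intro f hf
      obtain ⟨c, hc, rfl⟩ := List.mem_map.mp hf
      exact ⟨c, hCF (mem_toList.mp hc), rfl⟩
    · intro z hz hp
      apply h z _ hp
      intro c hc
      exact (hcp c z).mp (hz _ (List.mem_map.mpr ⟨c, mem_toList.mpr hc, rfl⟩))
  refine ⟨F, hF1, hF2, ?_, ?_⟩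
  · intro z
    obtain ⟨cl, hcl, hz⟩ := hF3 z
    refine ⟨cl, hcl, fun h => ?_⟩
    rw [(hcp cl z).mpr h] at hz
    exact absurd hz (by simp)
  · -- treewidth
    rintro a b S π ha hb ⟨τ⟩
    rw [← hy] at ha hb
    obtain ⟨r, hr⟩ := π.final
    apply hnum S a ha
    refine treewidth_bound hg τ.isTree (line := π.line) (P := π.prem) (a := a) (b := b) ?_ ?_
      π.mem π.card_prem π.prem_lt (hok π) hr τ.card_bag τ.line_mem τ.prem_mem τ.connected
    · nlinarith
    · have h1 : (b + 1) * (a + 1) ≤ (y + 1) * (y + 1) := Nat.mul_le_mul (by omega) (by omega)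
      nlinarith

end Pool.Agent.Results.MP_9cec2c_lc.TreewidthOfProofs
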